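import Pool.Agent.N354.UC.Stm

/-!
# Project UC, leaf A: labelled graph soficity gives permutation soficity
-/

set_option autoImplicit false

namespace Pool.Agent.N478.UC

open Pool.Agent.N354.UC

section balls

variable {V : Type} {G : SimpleGraph V}

lemma ball_self (v : V) (k : ℕ) : v ∈ ball G v k := ⟨SimpleGraph.Walk.nil, Nat.zero_le _⟩

lemma ball_mono {v x : V} {k l : ℕ} (h : k ≤ l) (hx : x ∈ ball G v k) : x ∈ ball G v l := by
  obtain ⟨p, hp⟩ := hx
  exact ⟨p, hp.trans h⟩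

lemma ball_trans {v x y : V} {k l : ℕ} (hx : x ∈ ball G v k) (hy : y ∈ ball G x l) :
    y ∈ ball G v (k + l) := by
  obtain ⟨p, hp⟩ := hx
  obtain ⟨q, hq⟩ := hy
  refine ⟨p.append q, ?_⟩
  rw [SimpleGraph.Walk.length_append]
  omega

lemma ball_zero {v x : V} (h : x ∈ ball G v 0) : x = v := by
  obtain ⟨p, hp⟩ := h
  cases p with
  | nil => rfl
  | cons h q => simp at hp

lemma ball_step {v x y : V} {k : ℕ} (hx : x ∈ ball G v k) (h : x = y ∨ G.Adj x y) :
    y ∈ ball G v (k + 1) := by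
  rcases h with rfl | h
  · exact ball_mono (Nat.le_succ _) hx
  · exact ball_trans hx ⟨SimpleGraph.Walk.cons h SimpleGraph.Walk.nil, le_refl _⟩

lemma ball_succ {v x : V} {k : ℕ} (hx : x ∈ ball G v (k + 1)) :
    x ∈ ball G v k ∨ ∃ y ∈ ball G v k, G.Adj x y := by
  obtain ⟨p, hp⟩ := hx
  have h : ∀ q : G.Walk x v, q.length ≤ k + 1 →
      x ∈ ball G v k ∨ ∃ y ∈ ball G v k, G.Adj x y := by
    intro q hq
    cases q with
    | nil => exact Or.inl (ball_self _ _)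
    | cons h q =>
      refine Or.inr ⟨_, ⟨q.reverse, ?_⟩, h⟩
      rw [SimpleGraph.Walk.length_reverse]
      rw [SimpleGraph.Walk.length_cons] at hq
      omega
  exact h p.reverse (by rw [SimpleGraph.Walk.length_reverse]; exact hp)

end balls

section group

variable {Γ : Type} [Group Γ] {S : Finset Γ}

lemma cay_step (s : Γ) (hs : s ∈ S) (x : Γ) : x = s * x ∨ (cay S).Adj x (s * x) := by
  by_cases h : x = s * x
  · exact Or.inl h
  · right
    rw [cay, SimpleGraph.fromRel_adj]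
    exact ⟨h, Or.inl ⟨s, hs, rfl⟩⟩

lemma cay_ball_mul {s : Γ} (hs : s ∈ S) {x : Γ} {k : ℕ} (hx : x ∈ ball (cay S) 1 k) :
    s * x ∈ ball (cay S) 1 (k + 1) := ball_step hx (cay_step s hs x)

lemma cay_ball_succ (hS : ∀ s ∈ S, s⁻¹ ∈ S) {x : Γ} {k : ℕ} (hx : x ∈ ball (cay S) 1 (k + 1)) :
    x ∈ ball (cay S) 1 k ∨ ∃ s ∈ S, ∃ y ∈ ball (cay S) 1 k, x = s * y := by
  rcases ball_succ hx with h | ⟨y, hy, h⟩
  · exact Or.inl h
  · right
    rw [cay, SimpleGraph.fromRel_adj] at h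
    rcases h with ⟨-, ⟨s, hs, h⟩ | ⟨s, hs, h⟩⟩
    · exact ⟨s⁻¹, hS s hs, y, hy, by rw [h]; group⟩
    · exact ⟨s, hs, y, hy, h⟩

lemma cay_ball_exists (hS : ∀ s ∈ S, s⁻¹ ∈ S) (hg : Subgroup.closure (S : Set Γ) = ⊤) (x : Γ) :
    ∃ k, x ∈ ball (cay S) 1 k := by
  have h : x ∈ Subgroup.closure (S : Set Γ) := by rw [hg]; exact Subgroup.mem_top x
  induction h using Subgroup.closure_induction_left with
  | one => exact ⟨0, ball_self _ _⟩
  | mul_left x hx y hy ih =>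
    obtain ⟨k, hk⟩ := ih
    exact ⟨k + 1, cay_ball_mul hx hk⟩
  | inv_mul_cancel x hx y hy ih =>
    obtain ⟨k, hk⟩ := ih
    exact ⟨k + 1, cay_ball_mul (hS x hx) hk⟩

lemma cay_ball_mul' (hS : ∀ s ∈ S, s⁻¹ ∈ S) {h : Γ} {L : ℕ} (hh : h ∈ ball (cay S) 1 L) :
    ∀ (k : ℕ) (g : Γ), g ∈ ball (cay S) 1 k → g * h ∈ ball (cay S) 1 (k + L) := by
  intro k
  induction k with
  | zero =>
    intro g hg
    rw [ball_zero hg, one_mul, zero_add]
    exact hh
  | succ k ih =>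
    intro g hg
    rcases cay_ball_succ hS hg with h1 | ⟨s, hs, y, hy, rfl⟩
    · exact ball_mono (by omega) (ih g h1)
    · rw [mul_assoc]
      exact ball_mono (by omega) (cay_ball_mul hs (ih y hy))

/-- a chart of the ball of `v` -/
structure Ch (S : Finset Γ) {V : Type} (E : S → V → V → Prop) (v : V) (R : ℕ) (ψ : Γ → V) :
    Prop where
  one : ψ 1 = v
  surj : ∀ x ∈ ball (under E) v R, ∃ g ∈ ball (cay S) 1 R, ψ g = x
  inj : ∀ g ∈ ball (cay S) 1 R, ∀ h ∈ ball (cay S) 1 R, ψ g = ψ h → g = h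
  edge : ∀ (s : S), ∀ g ∈ ball (cay S) 1 R, ∀ h ∈ ball (cay S) 1 R,
    (E s (ψ g) (ψ h) ↔ h = s * g)

lemma exists_ch {V : Type} {E : S → V → V → Prop} {v : V} {R : ℕ} (h : LabIso S E v R) :
    ∃ ψ : Γ → V, Ch S E v R ψ := by
  classical
  obtain ⟨e, he1, he2⟩ := h
  have hv : v ∈ ball (under E) v R := ball_self _ _
  have h1 : (1 : Γ) ∈ ball (cay S) 1 R := ball_self _ _
  refine ⟨fun g => if h : g ∈ ball (cay S) 1 R then (e.symm ⟨g, h⟩ : V) else v, ?_, ?_, ?_, ?_⟩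
  · simp only [dif_pos h1]
    have h2 : e ⟨v, hv⟩ = ⟨1, h1⟩ := Subtype.ext (he1 hv)
    rw [← h2, Equiv.symm_apply_apply]
  · intro x hx
    refine ⟨(e ⟨x, hx⟩ : Γ), (e ⟨x, hx⟩).2, ?_⟩
    simp only [dif_pos (e ⟨x, hx⟩).2, Subtype.coe_eta, Equiv.symm_apply_apply]
  · intro g hg h hh hgh
    simp only [dif_pos hg, dif_pos hh] at hgh
    have h2 := e.symm.injective (Subtype.ext hgh)
    exact congrArg Subtype.val h2
  · intro s g hg h hh
    simp only [dif_pos hg, dif_pos hh]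
    rw [he2 s (e.symm ⟨g, hg⟩) (e.symm ⟨h, hh⟩), Equiv.apply_symm_apply, Equiv.apply_symm_apply]

lemma under_step {V : Type} {E : S → V → V → Prop} {s : S} {a b : V} (h : E s a b) :
    (a = b ∨ (under E).Adj a b) ∧ (b = a ∨ (under E).Adj b a) := by
  by_cases hab : a = b
  · exact ⟨Or.inl hab, Or.inl hab.symm⟩
  · refine ⟨Or.inr ?_, Or.inr ?_⟩
    · rw [under, SimpleGraph.fromRel_adj]
      exact ⟨hab, Or.inl ⟨s, h⟩⟩
    · rw [under, SimpleGraph.fromRel_adj]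
      exact ⟨fun h => hab h.symm, Or.inr ⟨s, h⟩⟩

lemma Ch.mem (hS : ∀ s ∈ S, s⁻¹ ∈ S) {V : Type} {E : S → V → V → Prop} {v : V} {R : ℕ}
    {ψ : Γ → V} (hψ : Ch S E v R ψ) :
    ∀ (k : ℕ), k ≤ R → ∀ g ∈ ball (cay S) (1 : Γ) k, ψ g ∈ ball (under E) v k := by
  intro k
  induction k with
  | zero =>
    intro _ g hg
    rw [ball_zero hg, hψ.one]
    exact ball_self _ _
  | succ k ih =>
    intro hk g hg
    rcases cay_ball_succ hS hg with h1 | ⟨s, hs, y, hy, rfl⟩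
    · exact ball_mono (by omega) (ih (by omega) g h1)
    · have h2 : E ⟨s, hs⟩ (ψ y) (ψ (s * y)) :=
        (hψ.edge ⟨s, hs⟩ y (ball_mono (by omega) hy) (s * y) (ball_mono hk hg)).2 rfl
      exact ball_step (ih (by omega) y hy) (under_step h2).1

lemma Ch.inj' (hS : ∀ s ∈ S, s⁻¹ ∈ S) {V : Type} {E : S → V → V → Prop} {v v' : V} {R : ℕ}
    {ψ ψ' : Γ → V} (hψ : Ch S E v R ψ) (hψ' : Ch S E v' R ψ') :
    ∀ (k : ℕ), k + 1 ≤ R → ∀ g ∈ ball (cay S) (1 : Γ) k, ψ g = ψ' g → v = v' := by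
  intro k
  induction k with
  | zero =>
    intro _ g hg h
    rwa [ball_zero hg, hψ.one, hψ'.one] at h
  | succ k ih =>
    intro hk g hg h
    rcases cay_ball_succ hS hg with h1 | ⟨s, hs, y, hy, rfl⟩
    · exact ih (by omega) g h1 h
    · have hyR : y ∈ ball (cay S) (1 : Γ) R := ball_mono (by omega) hy
      have hgR : s * y ∈ ball (cay S) (1 : Γ) R := ball_mono (by omega) hg
      have h2 : E ⟨s, hs⟩ (ψ' y) (ψ' (s * y)) := (hψ'.edge ⟨s, hs⟩ y hyR (s * y) hgR).2 rfl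
      have h3 : ψ (s * y) ∈ ball (under E) v (k + 1) := hψ.mem hS (k + 1) (by omega) _ hg
      rw [h] at h3
      have h4 : ψ' y ∈ ball (under E) v R := ball_mono hk (ball_step h3 (under_step h2).2)
      obtain ⟨z, hz, hz2⟩ := hψ.surj _ h4
      rw [← hz2, ← h] at h2
      have h5 := (hψ.edge ⟨s, hs⟩ z hz (s * y) hgR).1 h2
      have h6 : y = z := mul_left_cancel h5
      rw [← h6] at hz2
      exact ih (by omega) y hy hz2

lemma Ch.comp (hS : ∀ s ∈ S, s⁻¹ ∈ S) {V : Type} {E : S → V → V → Prop} {v v' : V} {R L : ℕ}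
    {ψ ψ' : Γ → V} (hψ : Ch S E v R ψ) (hψ' : Ch S E v' R ψ') {h : Γ}
    (hh : h ∈ ball (cay S) (1 : Γ) L) (hv : ψ h = v') :
    ∀ (k : ℕ), k + L ≤ R → ∀ g ∈ ball (cay S) (1 : Γ) k, ψ' g = ψ (g * h) := by
  intro k
  induction k with
  | zero =>
    intro _ g hg
    rw [ball_zero hg, hψ'.one, one_mul, hv]
  | succ k ih =>
    intro hk g hg
    rcases cay_ball_succ hS hg with h1 | ⟨s, hs, y, hy, rfl⟩
    · exact ih (by omega) g h1
    · have h1 := ih (by omega) y hy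
      have hyR : y ∈ ball (cay S) (1 : Γ) R := ball_mono (by omega) hy
      have hgR : s * y ∈ ball (cay S) (1 : Γ) R := ball_mono (by omega) hg
      have h2 : E ⟨s, hs⟩ (ψ' y) (ψ' (s * y)) := (hψ'.edge ⟨s, hs⟩ y hyR (s * y) hgR).2 rfl
      have h3 : ψ' (s * y) ∈ ball (under E) v' (k + 1) := hψ'.mem hS (k + 1) (by omega) _ hg
      have h4 : v' ∈ ball (under E) v L := by
        rw [← hv]; exact hψ.mem hS L (by omega) _ hh
      have h5 : ψ' (s * y) ∈ ball (under E) v R := ball_mono (by omega) (ball_trans h4 h3)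
      obtain ⟨z, hz, hz2⟩ := hψ.surj _ h5
      rw [← hz2, h1] at h2
      have h6 : y * h ∈ ball (cay S) (1 : Γ) R := ball_mono (by omega) (cay_ball_mul' hS hh k y hy)
      have h7 := (hψ.edge ⟨s, hs⟩ (y * h) h6 z hz).1 h2
      rw [← hz2, h7, mul_assoc]

end group

/-- an injective map on a subset extends to a permutation -/
lemma ext_perm {n : ℕ} (V0 : Finset (Fin n)) (f : Fin n → Fin n) (hf : Set.InjOn f V0) :
    ∃ π : Equiv.Perm (Fin n), ∀ v ∈ V0, π v = f v := by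
  obtain ⟨g, hg⟩ := Finset.exists_equiv_extend_of_card_eq (t := (Finset.univ : Finset (Fin n)))
    (by simp) (s := V0) (f := f) (Finset.subset_univ _) hf
  exact ⟨g.trans (Equiv.subtypeUnivEquiv (fun x => Finset.mem_univ x)), fun v hv => hg v hv⟩

theorem t_A : Pool.Agent.N354.UC.S_A := by
  classical
  intro Γ _ hsof F ε hε
  obtain ⟨S, hS, hgen, hsof⟩ := hsof
  -- a radius
  obtain ⟨L, hL⟩ : ∃ L : ℕ, (∀ g ∈ F, g ∈ ball (cay S) (1 : Γ) L) ∧
      ∀ g ∈ F, ∀ h ∈ F, g * h ∈ ball (cay S) (1 : Γ) L := by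
    choose len hlen using cay_ball_exists (S := S) hS hgen
    refine ⟨∑ g ∈ F, len g + ∑ g ∈ F, len g, fun g hg => ?_, fun g hg h hh => ?_⟩
    · have h1 : len g ≤ ∑ g ∈ F, len g := Finset.single_le_sum (fun _ _ => Nat.zero_le _) hg
      exact ball_mono (by omega) (hlen g)
    · have h1 : len g ≤ ∑ g ∈ F, len g := Finset.single_le_sum (fun _ _ => Nat.zero_le _) hg
      have h2 : len h ≤ ∑ g ∈ F, len g := Finset.single_le_sum (fun _ _ => Nat.zero_le _) hh
      exact ball_mono (by omega) (cay_ball_mul' hS (hlen h) _ _ (hlen g))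
  obtain ⟨hL1, hL2⟩ := hL
  obtain ⟨n, E, V0, hn, hcard, hV⟩ := hsof (ε / 3) (by positivity) (2 * L + 1)
  set R := 2 * L + 1 with hR
  have hn0 : (0 : ℝ) < n := by exact_mod_cast hn
  have hch : ∀ v : Fin n, ∃ ψ : Γ → Fin n, v ∈ V0 → Ch S E v R ψ := by
    intro v
    by_cases hv : v ∈ V0
    · obtain ⟨ψ, hψ⟩ := exists_ch (hV v hv)
      exact ⟨ψ, fun _ => hψ⟩
    · exact ⟨fun _ => v, fun h => absurd h hv⟩
  choose ψ hψ using hch
  have hperm : ∀ g : Γ, ∃ π : Equiv.Perm (Fin n), g ∈ ball (cay S) (1 : Γ) L →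
      ∀ v ∈ V0, π v = ψ v g := by
    intro g
    by_cases hg : g ∈ ball (cay S) (1 : Γ) L
    · obtain ⟨π, hπ⟩ := ext_perm V0 (fun v => ψ v g) (by
        intro v hv v' hv' h
        exact (hψ v hv).inj' hS (hψ v' hv') L (by omega) g hg h)
      exact ⟨π, fun _ => hπ⟩
    · exact ⟨1, fun h => absurd h hg⟩
  choose φ hφ using hperm
  have hVc : ((V0ᶜ).card : ℝ) ≤ ε / 3 * n := by
    rw [Finset.card_compl, Fintype.card_fin, Nat.cast_sub (by
      simpa using Finset.card_le_univ V0)]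
    linarith
  refine ⟨n, φ, fun g hg h hh => ?_, fun g hg hg1 => ?_⟩
  · have hsub : Finset.univ.filter (fun i => φ (g * h) i ≠ (φ g * φ h) i) ⊆
        V0ᶜ ∪ (V0ᶜ).image (φ h).symm := by
      intro i hi
      rw [Finset.mem_filter] at hi
      by_contra hcon
      rw [Finset.mem_union, not_or, Finset.mem_compl, not_not, Finset.mem_image] at hcon
      obtain ⟨h1, h2⟩ := hcon
      have h3 : φ h i ∈ V0 := by
        by_contra h4
        exact h2 ⟨φ h i, Finset.mem_compl.2 h4, Equiv.symm_apply_apply _ _⟩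
      apply hi.2
      have e1 : φ h i = ψ i h := hφ h (hL1 h hh) i h1
      have e2 : φ g (φ h i) = ψ (φ h i) g := hφ g (hL1 g hg) _ h3
      have e3 : φ (g * h) i = ψ i (g * h) := hφ (g * h) (hL2 g hg h hh) i h1
      show φ (g * h) i = φ g (φ h i)
      rw [e2, e3]
      exact ((hψ i h1).comp hS (hψ _ h3) (hL1 h hh) e1.symm L (by omega) g (hL1 g hg)).symm
    have h1 := Finset.card_le_card hsub
    have h2 := Finset.card_union_le (V0ᶜ) ((V0ᶜ).image (φ h).symm)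
    have h3 : ((V0ᶜ).image (φ h).symm).card ≤ (V0ᶜ).card := Finset.card_image_le
    have h4 : ((Finset.univ.filter (fun i => φ (g * h) i ≠ (φ g * φ h) i)).card : ℝ) ≤
        (V0ᶜ).card + (V0ᶜ).card := by
      exact_mod_cast h1.trans (h2.trans (by omega))
    have h5 : 0 < ε * n := by positivity
    linarith
  · have hsub : V0 ⊆ Finset.univ.filter (fun i => φ g i ≠ i) := by
      intro i hi
      rw [Finset.mem_filter]
      refine ⟨Finset.mem_univ _, fun h => hg1 ?_⟩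
      rw [hφ g (hL1 g hg) i hi] at h
      refine (hψ i hi).inj g (ball_mono (by omega) (hL1 g hg)) 1 (ball_self _ _) ?_
      rw [h, (hψ i hi).one]
    have h1 : (V0.card : ℝ) ≤ ((Finset.univ.filter (fun i => φ g i ≠ i)).card : ℝ) := by
      exact_mod_cast Finset.card_le_card hsub
    have h5 : 0 < ε * n := by positivity
    nlinarith

end Pool.Agent.N478.UC
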